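import Mathlib

/-!
# The Erdős matching theorem for large `n`
-/

set_option autoImplicit false

namespace Pool.Agent.TH634.SH

open Finset

variable {α : Type*} [DecidableEq α]

/-- `H` has `m` pairwise disjoint members. -/
def HasMatching (H : Finset (Finset α)) (m : ℕ) : Prop :=
  ∃ M ⊆ H, M.card = m ∧ (M : Set (Finset α)).PairwiseDisjoint id

theorem card_two (V : Finset α) (r : ℕ) (hr : 2 ≤ r) (v w : α) (hvw : v ≠ w) :
    ((V.powersetCard r).filter (fun B => v ∈ B ∧ w ∈ B)).card ≤ V.card ^ (r - 2) := by
  calc ((V.powersetCard r).filter (fun B => v ∈ B ∧ w ∈ B)).card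
      ≤ (V.powersetCard (r - 2)).card := by
        apply card_le_card_of_injOn (fun B => (B.erase v).erase w)
        · intro B hB
          simp only [coe_filter, mem_powersetCard, Set.mem_ofPred_eq] at hB
          obtain ⟨⟨hBV, hBc⟩, hv, hw⟩ := hB
          simp only [mem_coe, mem_powersetCard]
          refine ⟨(erase_subset _ _).trans ((erase_subset _ _).trans hBV), ?_⟩
          rw [card_erase_of_mem (mem_erase.2 ⟨hvw.symm, hw⟩), card_erase_of_mem hv, hBc]
          omega
        · intro B hB C hC h
          simp only [coe_filter, mem_powersetCard, Set.mem_ofPred_eq] at hB hC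
          have h1 : insert v (insert w ((B.erase v).erase w)) = B := by
            rw [insert_erase (mem_erase.2 ⟨hvw.symm, hB.2.2⟩), insert_erase hB.2.1]
          have h2 : insert v (insert w ((C.erase v).erase w)) = C := by
            rw [insert_erase (mem_erase.2 ⟨hvw.symm, hC.2.2⟩), insert_erase hC.2.1]
          rw [← h1, ← h2]
          exact congrArg (fun X => insert v (insert w X)) h
    _ = V.card.choose (r - 2) := card_powersetCard _ _
    _ ≤ V.card ^ (r - 2) := Nat.choose_le_pow _ _

theorem card_biUnion_le' (H M : Finset (Finset α)) (r k : ℕ) (hM : M ⊆ H)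
    (hc : M.card ≤ k) (hr : ∀ B ∈ H, B.card = r) : (M.biUnion id).card ≤ r * k := by
  calc (M.biUnion id).card ≤ ∑ B ∈ M, (id B).card := card_biUnion_le
    _ = ∑ B ∈ M, r := sum_congr rfl fun B hB => hr B (hM hB)
    _ = M.card * r := by rw [sum_const, smul_eq_mul]
    _ ≤ r * k := by rw [mul_comm]; exact Nat.mul_le_mul_left _ hc

/-- the numerical inequality -/
theorem num (r k n : ℕ) (hr : 2 ≤ r) (hk : 1 ≤ k) (h1 : 2 * r ≤ n)
    (h2 : 2 ^ (r - 1) * (r - 1).factorial * (r * k * (r * k)) ≤ n) :
    r * k * (r * k * n ^ (r - 2)) + (n - k).choose r ≤ n.choose r := by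
  obtain ⟨q, rfl⟩ : ∃ q, r = q + 2 := ⟨r - 2, by omega⟩
  obtain ⟨m, rfl⟩ : ∃ m, n = m + 1 := ⟨n - 1, by omega⟩
  have e1 : q + 2 - 1 = q + 1 := rfl
  have e2 : q + 2 - 2 = q := rfl
  rw [e1] at h2
  rw [e2]
  have h3 : (m + 1 - k).choose (q + 2) ≤ m.choose (q + 2) := Nat.choose_le_choose _ (by omega)
  have h4 : (m + 1).choose (q + 2) = m.choose (q + 1) + m.choose (q + 2) := Nat.choose_succ_succ _ _
  have h5 : (m + 1 - (q + 1)) ^ (q + 1) ≤ m.descFactorial (q + 1) := Nat.pow_sub_le_descFactorial _ _
  rw [Nat.descFactorial_eq_factorial_mul_choose] at h5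
  have h6 : m + 1 ≤ 2 * (m + 1 - (q + 1)) := by omega
  have h7 : (m + 1) ^ (q + 1) ≤ 2 ^ (q + 1) * (m + 1 - (q + 1)) ^ (q + 1) := by
    rw [← mul_pow]; exact Nat.pow_le_pow_left h6 _
  have h8 : (2 ^ (q + 1) * (q + 1).factorial) * ((q + 2) * k * ((q + 2) * k) * (m + 1) ^ q)
      ≤ (2 ^ (q + 1) * (q + 1).factorial) * m.choose (q + 1) := by
    calc (2 ^ (q + 1) * (q + 1).factorial) * ((q + 2) * k * ((q + 2) * k) * (m + 1) ^ q)
        = (2 ^ (q + 1) * (q + 1).factorial * ((q + 2) * k * ((q + 2) * k))) * (m + 1) ^ q := by ring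
      _ ≤ (m + 1) * (m + 1) ^ q := Nat.mul_le_mul_right _ h2
      _ = (m + 1) ^ (q + 1) := by ring
      _ ≤ 2 ^ (q + 1) * (m + 1 - (q + 1)) ^ (q + 1) := h7
      _ ≤ 2 ^ (q + 1) * ((q + 1).factorial * m.choose (q + 1)) := Nat.mul_le_mul_left _ h5
      _ = _ := by ring
  have h9 : (q + 2) * k * ((q + 2) * k) * (m + 1) ^ q ≤ m.choose (q + 1) :=
    Nat.le_of_mul_le_mul_left h8 (by positivity)
  rw [h4]
  have h10 : (q + 2) * k * ((q + 2) * k * (m + 1) ^ q)
      = (q + 2) * k * ((q + 2) * k) * (m + 1) ^ q := by ring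
  rw [h10]
  omega

theorem erdos_aux (r : ℕ) (hr : 2 ≤ r) : ∀ (k : ℕ) (V : Finset α)
    (H : Finset (Finset α)),
    2 * r + k + 2 ^ (r - 1) * (r - 1).factorial * (r * k * (r * k)) ≤ V.card →
    H ⊆ V.powersetCard r → ¬ HasMatching H (k + 1) →
    H.card + (V.card - k).choose r ≤ V.card.choose r := by
  intro k
  induction k with
  | zero =>
    intro V H _ hH hm
    have : H = ∅ := by
      by_contra hne
      obtain ⟨B, hB⟩ := nonempty_iff_ne_empty.2 hne
      exact hm ⟨{B}, singleton_subset_iff.2 hB, card_singleton _, by simp⟩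
    simp [this]
  | succ k ih =>
    intro V H hV hH hm
    have hmono : 2 ^ (r - 1) * (r - 1).factorial * (r * k * (r * k)) ≤
        2 ^ (r - 1) * (r - 1).factorial * (r * (k + 1) * (r * (k + 1))) := by
      gcongr <;> omega
    have hcard : ∀ B ∈ H, B.card = r := fun B hB => (mem_powersetCard.1 (hH hB)).2
    have hsub : ∀ B ∈ H, B ⊆ V := fun B hB => (mem_powersetCard.1 (hH hB)).1
    by_cases hdeg : ∃ v ∈ V, r * (k + 1) * V.card ^ (r - 2) < (H.filter (fun B => v ∈ B)).card
    · obtain ⟨v, hv, hdv⟩ := hdeg
      set H' := H.filter (fun B => v ∉ B) with hH'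
      have hH'sub : H' ⊆ (V.erase v).powersetCard r := by
        intro B hB
        rw [hH', mem_filter] at hB
        rw [mem_powersetCard]
        refine ⟨fun x hx => mem_erase.2 ⟨?_, hsub B hB.1 hx⟩, hcard B hB.1⟩
        rintro rfl; exact hB.2 hx
      have hno : ¬ HasMatching H' (k + 1) := by
        rintro ⟨M, hMH, hMc, hMd⟩
        apply hm
        set W := M.biUnion id with hW
        have hMH2 : M ⊆ H := hMH.trans (filter_subset _ _)
        have hWc : W.card ≤ r * (k + 1) := card_biUnion_le' H M r (k + 1) hMH2 hMc.le hcard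
        have hvW : v ∉ W := by
          rw [hW, mem_biUnion]
          rintro ⟨B, hB, hvB⟩
          exact (mem_filter.1 (hMH hB)).2 hvB
        obtain ⟨B, hB, hBW⟩ : ∃ B ∈ H.filter (fun B => v ∈ B), Disjoint B W := by
          by_contra hcon
          push Not at hcon
          have h1 : H.filter (fun B => v ∈ B) ⊆
              W.biUnion (fun w => (V.powersetCard r).filter (fun B => v ∈ B ∧ w ∈ B)) := by
            intro B hB
            obtain ⟨w, hwB, hwW⟩ := not_disjoint_iff.1 (hcon B hB)
            rw [mem_biUnion]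
            rw [mem_filter] at hB
            exact ⟨w, hwW, mem_filter.2 ⟨hH hB.1, hB.2, hwB⟩⟩
          have h2 := card_le_card h1
          have h3 : (W.biUnion (fun w => (V.powersetCard r).filter
              (fun B => v ∈ B ∧ w ∈ B))).card ≤ r * (k + 1) * V.card ^ (r - 2) := by
            refine card_biUnion_le.trans ?_
            calc ∑ w ∈ W, ((V.powersetCard r).filter (fun B => v ∈ B ∧ w ∈ B)).card
                ≤ ∑ w ∈ W, V.card ^ (r - 2) := sum_le_sum fun w hw =>
                  card_two V r hr v w (by rintro rfl; exact hvW hw)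
              _ = W.card * V.card ^ (r - 2) := by rw [sum_const, smul_eq_mul]
              _ ≤ _ := Nat.mul_le_mul_right _ hWc
          omega
        rw [mem_filter] at hB
        have hBd : ∀ C ∈ M, Disjoint B C := fun C hC =>
          hBW.mono_right (subset_biUnion_of_mem id hC)
        have hBM : B ∉ M := fun h => (mem_filter.1 (hMH h)).2 hB.2
        refine ⟨insert B M, insert_subset hB.1 hMH2, by rw [card_insert_of_notMem hBM, hMc], ?_⟩
        rw [coe_insert]
        exact hMd.insert fun C hC _ => hBd C hC
      have hec : (V.erase v).card = V.card - 1 := card_erase_of_mem hv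
      have h1 := ih (V.erase v) H' (by rw [hec]; omega) hH'sub hno
      rw [hec] at h1
      have h2 : (H.filter (fun B => v ∈ B)).card ≤ (V.card - 1).choose (r - 1) := by
        rw [← hec, ← card_powersetCard]
        apply card_le_card_of_injOn (fun B => B.erase v)
        · intro B hB
          simp only [coe_filter, Set.mem_ofPred_eq] at hB
          simp only [mem_coe, mem_powersetCard]
          exact ⟨erase_subset_erase _ (hsub B hB.1), by rw [card_erase_of_mem hB.2, hcard B hB.1]⟩
        · intro B hB C hC h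
          simp only [coe_filter, Set.mem_ofPred_eq] at hB hC
          have := congrArg (fun X => insert v X) h
          simpa [insert_erase hB.2, insert_erase hC.2] using this
      have h3 : H.card = (H.filter (fun B => v ∈ B)).card + H'.card :=
        (card_filter_add_card_filter_not (s := H) (fun B => v ∈ B)).symm
      have h4 : V.card.choose r = (V.card - 1).choose (r - 1) + (V.card - 1).choose r := by
        obtain ⟨q, rfl⟩ : ∃ q, r = q + 1 := ⟨r - 1, by omega⟩
        obtain ⟨m, hm⟩ : ∃ m, V.card = m + 1 := ⟨V.card - 1, by omega⟩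
        rw [hm]; exact Nat.choose_succ_succ _ _
      have h5 : V.card - 1 - k = V.card - (k + 1) := by omega
      rw [h5] at h1
      omega
    · push Not at hdeg
      classical
      obtain ⟨M, hM, hmax⟩ := (H.powerset.filter
        (fun M : Finset (Finset α) => (M : Set (Finset α)).PairwiseDisjoint id)).exists_max_image
        card ⟨∅, by simp⟩
      rw [mem_filter, mem_powerset] at hM
      have hMk : M.card ≤ k + 1 := by
        by_contra hlt
        obtain ⟨M', hM', hc'⟩ := exists_subset_card_eq (n := k + 1 + 1) (s := M) (by omega)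
        exact hm ⟨M', hM'.trans hM.1, hc', hM.2.subset (by exact_mod_cast hM')⟩
      set W := M.biUnion id with hW
      have hWc : W.card ≤ r * (k + 1) := card_biUnion_le' H M r (k + 1) hM.1 hMk hcard
      have hWV : W ⊆ V := biUnion_subset.2 fun B hB => hsub B (hM.1 hB)
      have h1 : H ⊆ W.biUnion (fun w => H.filter (fun B => w ∈ B)) := by
        intro B hB
        have hnd : ¬ Disjoint B W := by
          intro hd
          have hBd : ∀ C ∈ M, Disjoint B C := fun C hC =>
            hd.mono_right (subset_biUnion_of_mem id hC)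
          have hBM : B ∉ M := by
            intro h
            have := disjoint_self.1 (hBd B h)
            have h0 := hcard B hB
            rw [this] at h0
            simp at h0
            omega
          have := hmax (insert B M) (by
            rw [mem_filter, mem_powerset]
            refine ⟨insert_subset hB hM.1, ?_⟩
            rw [coe_insert]
            exact hM.2.insert fun C hC _ => hBd C hC)
          rw [card_insert_of_notMem hBM] at this
          omega
        obtain ⟨w, hwB, hwW⟩ := not_disjoint_iff.1 hnd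
        exact mem_biUnion.2 ⟨w, hwW, mem_filter.2 ⟨hB, hwB⟩⟩
      have h2 : H.card ≤ r * (k + 1) * (r * (k + 1) * V.card ^ (r - 2)) := by
        refine (card_le_card h1).trans (card_biUnion_le.trans ?_)
        calc ∑ w ∈ W, (H.filter (fun B => w ∈ B)).card
            ≤ ∑ w ∈ W, r * (k + 1) * V.card ^ (r - 2) := sum_le_sum fun w hw => hdeg w (hWV hw)
          _ = W.card * (r * (k + 1) * V.card ^ (r - 2)) := by rw [sum_const, smul_eq_mul]
          _ ≤ _ := Nat.mul_le_mul_right _ hWc
      have h3 := num r (k + 1) V.card hr (by omega) (by omega) (by omega)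
      omega

omit [DecidableEq α] in
theorem erdos_one (V : Finset α) (H : Finset (Finset α)) (k : ℕ) (hk : k ≤ V.card)
    (hH : H ⊆ V.powersetCard 1) (hm : ¬ HasMatching H (k + 1)) :
    H.card + (V.card - k).choose 1 ≤ V.card.choose 1 := by
  have hle : H.card ≤ k := by
    by_contra hlt
    obtain ⟨M, hM, hc⟩ := exists_subset_card_eq (n := k + 1) (s := H) (by omega)
    refine hm ⟨M, hM, hc, ?_⟩
    intro B hB C hC hne
    obtain ⟨b, hb⟩ := card_eq_one.1 (mem_powersetCard.1 (hH (hM hB))).2
    obtain ⟨c, hc⟩ := card_eq_one.1 (mem_powersetCard.1 (hH (hM hC))).2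
    subst hb; subst hc
    simp only [Function.onFun, id, disjoint_singleton]
    rintro rfl; exact hne rfl
  simp only [Nat.choose_one_right]
  omega

/-- **The Erdős matching theorem** for large `n` -/
theorem erdos (r : ℕ) (hr : 1 ≤ r) (k : ℕ) (V : Finset α) (H : Finset (Finset α))
    (hV : 2 * r + k + 2 ^ (r - 1) * (r - 1).factorial * (r * k * (r * k)) ≤ V.card)
    (hH : H ⊆ V.powersetCard r) (hm : ¬ HasMatching H (k + 1)) :
    H.card + (V.card - k).choose r ≤ V.card.choose r := by
  rcases Nat.lt_or_ge r 2 with h | h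
  · obtain rfl : r = 1 := by omega
    exact erdos_one V H k (by omega) hH hm
  · exact erdos_aux r h k V H hV hH hm

end Pool.Agent.TH634.SH
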