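import Pool.Agent.TH634.SH.Main

/-!
# The smallest lower `2`-shadow of a covering family: asymptotics

The proof of `es_upper` (the Erdős-Stone theorem with numbers of edges from Mathlib's version with
minimum degrees) is taken from `Pool/Agent/Results/MP_ebbdc0_co/Components.lean`.
-/

set_option autoImplicit false

namespace Pool.Agent.TH634.SH

open SimpleGraph Finset Filter Topology

theorem es_upper {W : Type} [Fintype W] (H : SimpleGraph W) (r : ℕ) (hr : 1 ≤ r)
    (hH : H.Colorable (r + 1)) (_hne : H ≠ ⊥) : turanDensity H ≤ 1 - 1 / (r : ℝ) := by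
  classical
  have hr1 : (1 : ℝ) ≤ (r : ℝ) := by exact_mod_cast hr
  have hr0 : (0 : ℝ) ≤ 1 - 1 / (r : ℝ) := by
    have : 1 / (r : ℝ) ≤ 1 := by
      rw [div_le_one (by linarith)]
      exact hr1
    linarith
  apply le_of_forall_pos_le_add
  intro ε hε
  obtain ⟨n0, hn0⟩ := eventually_atTop.mp
    (eventually_completeEquipartiteGraph_isContained_of_minDegree hε r (Fintype.card W))
  set ρ : ℝ := 1 - 1 / (r : ℝ) + ε with hρdef
  have hρ : 0 < ρ := by linarith
  have hcont : ∀ n, n0 ≤ n → ∀ (G : SimpleGraph (Fin n)) [DecidableRel G.Adj], H.Free G →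
      (G.minDegree : ℝ) < ρ * n := by
    intro n hn G _ hfree
    by_contra hc
    push Not at hc
    have h1 := hn0 n hn (G := G) hc
    obtain ⟨C⟩ := hH
    have h2 : H ⊑ completeEquipartiteGraph (r + 1) (Fintype.card W) :=
      isContained_completeEquipartiteGraph_of_colorable C _ (fun c => by
        exact Fintype.card_subtype_le _)
    exact hfree (h2.trans h1)
  have hstep : ∀ n, n0 ≤ n + 1 →
      (extremalNumber (n + 1) H : ℝ) ≤ extremalNumber n H + ρ * ((n : ℝ) + 1) := by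
    intro n hn
    have key : (extremalNumber (Fintype.card (Fin (n + 1))) H : ℝ) ≤
        extremalNumber n H + ρ * ((n : ℝ) + 1) := by
      rw [extremalNumber_le_iff_of_nonneg H (by positivity)]
      intro G _ hfree
      obtain ⟨v, hv⟩ := G.exists_minimal_degree_vertex
      have h1 := hcont (n + 1) hn G hfree
      have h2 := card_edgeFinset_deleteIncidenceSet_le_extremalNumber hfree v
      rw [Fintype.card_fin, Nat.add_sub_cancel] at h2
      have h3 := card_edgeFinset_deleteIncidenceSet G v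
      have h4 : (G.edgeFinset.card : ℝ) ≤ (G.deleteIncidenceSet v).edgeFinset.card + G.degree v := by
        have : G.edgeFinset.card ≤ (G.deleteIncidenceSet v).edgeFinset.card + G.degree v := by
          omega
        exact_mod_cast this
      have h5 : ((G.deleteIncidenceSet v).edgeFinset.card : ℝ) ≤ extremalNumber n H := by
        exact_mod_cast h2
      rw [hv] at h1
      push_cast at h1
      linarith
    simpa using key
  set C0 : ℝ := ((extremalNumber n0 H : ℕ) : ℝ) with hC0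
  have hC0n : 0 ≤ C0 := by positivity
  have hind : ∀ k : ℕ, (extremalNumber (n0 + k) H : ℝ) ≤
      C0 + ρ * (((n0 + k : ℕ) : ℝ) * (((n0 + k : ℕ) : ℝ) + 1) / 2) := by
    intro k
    induction k with
    | zero =>
      simp only [Nat.add_zero]
      have : 0 ≤ ρ * ((n0 : ℝ) * ((n0 : ℝ) + 1) / 2) := by positivity
      linarith
    | succ k ih =>
      have h := hstep (n0 + k) (by omega)
      have e : n0 + (k + 1) = n0 + k + 1 := by omega
      rw [e]
      push_cast at h ih ⊢
      nlinarith [h, ih]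
  by_contra hd
  push Not at hd
  set d : ℝ := turanDensity H with hddef
  have hdr : 0 < d - ρ := by linarith
  obtain ⟨k, hk⟩ := exists_nat_gt (2 * (ρ + C0) / (d - ρ) + 1)
  set n : ℕ := n0 + (k + 2) with hn
  have hn2 : 2 ≤ n := by omega
  have hlow : d ≤ (extremalNumber n H : ℝ) / (n.choose 2 : ℝ) :=
    (isGLB_turanDensity H).1 ⟨n, hn2, rfl⟩
  have hch : (0 : ℝ) < (n.choose 2 : ℝ) := by
    exact_mod_cast Nat.choose_pos hn2
  rw [le_div_iff₀ hch, Nat.cast_choose_two] at hlow
  have hup := hind (k + 2)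
  rw [← hn] at hup
  have hnk : (k : ℝ) ≤ (n : ℝ) - 2 := by
    rw [hn]
    push_cast
    have : (0 : ℝ) ≤ (n0 : ℝ) := Nat.cast_nonneg _
    linarith
  have hn1 : (1 : ℝ) ≤ (n : ℝ) := by
    have : (0 : ℝ) ≤ (k : ℝ) := Nat.cast_nonneg _
    linarith
  have hbig : 2 * (ρ + C0) < (d - ρ) * ((n : ℝ) - 1) := by
    have h1 : 2 * (ρ + C0) / (d - ρ) < (n : ℝ) - 1 := by linarith
    rw [div_lt_iff₀ hdr] at h1
    linarith
  have hfin : (n : ℝ) * (2 * (ρ + C0)) < (n : ℝ) * ((d - ρ) * ((n : ℝ) - 1)) :=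
    mul_lt_mul_of_pos_left hbig (by linarith)
  have hC0' : C0 ≤ (n : ℝ) * C0 := le_mul_of_one_le_left hC0n hn1
  nlinarith [hfin, hC0', hlow, hup]

/-- the graph of the pairs outside the shadow -/
def cg (n : ℕ) (A : Finset (Finset (Fin n))) : SimpleGraph (Fin n) where
  Adj u v := u ≠ v ∧ ({u, v} : Finset (Fin n)) ∉ shadow n 2 A
  symm := ⟨fun u v h => ⟨h.1.symm, by rw [pair_comm]; exact h.2⟩⟩
  loopless := ⟨fun u h => h.1 rfl⟩

theorem le_card_edges (n : ℕ) (A : Finset (Finset (Fin n))) [DecidableRel (cg n A).Adj] :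
    n.choose 2 ≤ (cg n A).edgeFinset.card + (shadow n 2 A).card := by
  have hsub : shadow n 2 A ⊆ (univ : Finset (Fin n)).powersetCard 2 := filter_subset _ _
  have h1 : ((univ : Finset (Fin n)).powersetCard 2) \ shadow n 2 A ⊆
      (cg n A).edgeFinset.image Sym2.toFinset := by
    intro B hB
    rw [Finset.mem_sdiff, mem_powersetCard] at hB
    obtain ⟨u, v, huv, rfl⟩ := card_eq_two.1 hB.1.2
    refine Finset.mem_image.2 ⟨s(u, v), ?_, Sym2.toFinset_mk_eq⟩
    rw [mem_edgeFinset, mem_edgeSet]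
    exact ⟨huv, hB.2⟩
  have h2 := (card_le_card h1).trans card_image_le
  rw [card_sdiff_of_subset hsub, card_powersetCard, card_univ, Fintype.card_fin] at h2
  omega

theorem cg_free (n s t m : ℕ) (hs : 1 ≤ s) (ht : t ≤ (m + 1) * (s - 1))
    (A : Finset (Finset (Fin n))) (hA : Covering n s t A) :
    (completeEquipartiteGraph (m + 1) (s - 1)).Free (cg n A) := by
  classical
  rintro ⟨φ⟩
  have hinj : Function.Injective φ := φ.injective
  have hU : (univ.image φ).card = (m + 1) * (s - 1) := by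
    rw [card_image_of_injective _ hinj, card_univ, Fintype.card_prod, Fintype.card_fin,
      Fintype.card_fin]
  obtain ⟨T, hTU, hT⟩ := exists_subset_card_eq (n := t) (s := univ.image φ) (by omega)
  obtain ⟨S, hS, hST⟩ := hA.2 T hT
  have hSc := hA.1 S hS
  set S' : Finset (Fin (m + 1) × Fin (s - 1)) := univ.filter (fun x => φ x ∈ S) with hS'
  have h1 : s ≤ S'.card := by
    have h0 : S ⊆ S'.image φ := by
      intro y hy
      obtain ⟨x, -, hx⟩ := mem_image.1 (hTU (hST hy))
      exact mem_image.2 ⟨x, mem_filter.2 ⟨mem_univ _, by rw [hx]; exact hy⟩, hx⟩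
    exact hSc.symm.le.trans ((card_le_card h0).trans card_image_le)
  obtain ⟨x, hx, y, hy, hxy⟩ : ∃ x ∈ S', ∃ y ∈ S', x.1 ≠ y.1 := by
    by_contra hcon
    push Not at hcon
    obtain ⟨x0, hx0⟩ : S'.Nonempty := by rw [← card_pos]; omega
    have h2 : S'.card ≤ (univ : Finset (Fin (s - 1))).card := by
      apply card_le_card_of_injOn Prod.snd
      · intro x _; simp
      · intro x hx y hy h
        exact Prod.ext (hcon x hx y hy) h
    rw [card_univ, Fintype.card_fin] at h2
    omega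
  have hadj : (completeEquipartiteGraph (m + 1) (s - 1)).Adj x y :=
    completeEquipartiteGraph_adj.2 hxy
  have h3 : (cg n A).Adj (φ x) (φ y) := φ.toHom.map_adj hadj
  apply h3.2
  rw [shadow, mem_filter, mem_powersetCard]
  refine ⟨⟨subset_univ _, card_pair h3.1⟩, S, hS, ?_⟩
  intro z hz
  rw [mem_insert, mem_singleton] at hz
  rcases hz with rfl | rfl
  · exact (mem_filter.1 hx).2
  · exact (mem_filter.1 hy).2

theorem lower2 (s t m : ℕ) (hs : 2 ≤ s) (hst : s ≤ t) (hm : 1 ≤ m) (ht : t ≤ (m + 1) * (s - 1))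
    (ε : ℝ) (hε : 0 < ε) :
    ∀ᶠ n : ℕ in atTop, (1 / (m : ℝ) - ε) * (n.choose 2 : ℝ) ≤ (f n 2 s t : ℝ) := by
  classical
  have hne : completeEquipartiteGraph (m + 1) (s - 1) ≠ ⊥ := by
    intro h
    have h1 : (completeEquipartiteGraph (m + 1) (s - 1)).Adj
        (⟨0, by omega⟩, ⟨0, by omega⟩) (⟨1, by omega⟩, ⟨0, by omega⟩) := by
      rw [completeEquipartiteGraph_adj]
      simp
    rw [h] at h1
    exact h1
  have hes := es_upper (completeEquipartiteGraph (m + 1) (s - 1)) m hm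
    completeEquipartiteGraph_colorable hne
  filter_upwards [eventually_isContained_of_card_edgeFinset
    (completeEquipartiteGraph (m + 1) (s - 1)) hε] with n hn
  obtain ⟨A, hA, hf⟩ := exists_f n 2 s t hst
  have hlt : ((cg n A).edgeFinset.card : ℝ) <
      (turanDensity (completeEquipartiteGraph (m + 1) (s - 1)) + ε) * n.choose 2 := by
    by_contra hc
    push Not at hc
    exact cg_free n s t m (by omega) ht A hA (hn hc)
  have h1 : (n.choose 2 : ℝ) ≤ ((cg n A).edgeFinset.card : ℝ) + (shadow n 2 A).card := by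
    exact_mod_cast le_card_edges n A
  have h2 : (turanDensity (completeEquipartiteGraph (m + 1) (s - 1)) + ε) * (n.choose 2 : ℝ)
      ≤ (1 - 1 / (m : ℝ) + ε) * n.choose 2 := by
    apply mul_le_mul_of_nonneg_right _ (by positivity)
    linarith
  rw [hf]
  linarith

/-- the `s`-sets inside one residue class modulo `m` -/
def blocks (n m s : ℕ) : Finset (Finset (Fin n)) :=
  ((univ : Finset (Fin n)).powersetCard s).filter (fun S => ∃ i < m, ∀ x ∈ S, (x : ℕ) % m = i)

theorem blocks_covering (n m s t : ℕ) (hm : 1 ≤ m) (h : m * (s - 1) < t) :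
    Covering n s t (blocks n m s) := by
  refine ⟨fun S hS => (mem_powersetCard.1 (mem_filter.1 hS).1).2, fun T hT => ?_⟩
  obtain ⟨i, hi, hc⟩ := exists_lt_card_fiber_of_mul_lt_card_of_maps_to (s := T) (t := range m)
    (f := fun x : Fin n => (x : ℕ) % m) (n := s - 1)
    (fun x _ => mem_range.2 (Nat.mod_lt _ hm)) (by rw [hT, card_range]; exact h)
  rw [mem_range] at hi
  obtain ⟨S, hS, hSc⟩ := exists_subset_card_eq (n := s)
    (s := T.filter (fun x : Fin n => (x : ℕ) % m = i)) (by omega)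
  refine ⟨S, ?_, hS.trans (filter_subset _ _)⟩
  rw [blocks, mem_filter, mem_powersetCard]
  exact ⟨⟨subset_univ _, hSc⟩, i, hi, fun x hx => (mem_filter.1 (hS hx)).2⟩

theorem card_class (n m i : ℕ) (hm : 1 ≤ m) :
    ((univ : Finset (Fin n)).filter (fun x : Fin n => (x : ℕ) % m = i)).card ≤ n / m + 1 := by
  rw [← card_range (n / m + 1)]
  apply card_le_card_of_injOn (fun x : Fin n => (x : ℕ) / m)
  · intro x _
    simp only [mem_coe, mem_range]
    exact Nat.lt_succ_of_le (Nat.div_le_div_right x.2.le)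
  · intro x hx y hy h
    simp only [mem_coe, mem_filter] at hx hy
    simp only at h
    apply Fin.ext
    rw [← Nat.div_add_mod (x : ℕ) m, ← Nat.div_add_mod (y : ℕ) m, h, hx.2, hy.2]

theorem upper2_nat (n m s t : ℕ) (hm : 1 ≤ m) (h : m * (s - 1) < t) :
    f n 2 s t ≤ m * (n / m + 1).choose 2 := by
  refine (f_le (blocks_covering n m s t hm h)).trans ?_
  have h1 : shadow n 2 (blocks n m s) ⊆ (range m).biUnion (fun i =>
      ((univ : Finset (Fin n)).filter (fun x : Fin n => (x : ℕ) % m = i)).powersetCard 2) := by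
    intro B hB
    rw [shadow, mem_filter, mem_powersetCard] at hB
    obtain ⟨⟨-, hBc⟩, C, hC, hBC⟩ := hB
    obtain ⟨-, i, hi, hall⟩ := mem_filter.1 hC
    rw [mem_biUnion]
    exact ⟨i, mem_range.2 hi, mem_powersetCard.2
      ⟨fun x hx => mem_filter.2 ⟨mem_univ _, hall x (hBC hx)⟩, hBc⟩⟩
  refine (card_le_card h1).trans (card_biUnion_le.trans ?_)
  calc ∑ i ∈ range m, (((univ : Finset (Fin n)).filter
        (fun x : Fin n => (x : ℕ) % m = i)).powersetCard 2).card
      ≤ ∑ i ∈ range m, (n / m + 1).choose 2 := sum_le_sum fun i _ => by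
        rw [card_powersetCard]
        exact Nat.choose_le_choose _ (card_class n m i hm)
    _ = m * (n / m + 1).choose 2 := by rw [sum_const, smul_eq_mul, card_range]

theorem upper2 (s t m : ℕ) (hm : 1 ≤ m) (h : m * (s - 1) < t) (ε : ℝ) (hε : 0 < ε) :
    ∀ᶠ n : ℕ in atTop, (f n 2 s t : ℝ) ≤ (1 / (m : ℝ) + ε) * (n.choose 2 : ℝ) := by
  obtain ⟨N, hN⟩ := exists_nat_gt (2 / ε + 1)
  filter_upwards [eventually_ge_atTop (N + 2)] with n hn
  have hm0 : (1 : ℝ) ≤ m := by exact_mod_cast hm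
  have h1 : (f n 2 s t : ℝ) ≤ (m : ℝ) * ((n / m + 1).choose 2 : ℕ) := by
    exact_mod_cast upper2_nat n m s t hm h
  have hq : ((n / m : ℕ) : ℝ) ≤ (n : ℝ) / m := Nat.cast_div_le
  have hq0 : (0 : ℝ) ≤ ((n / m : ℕ) : ℝ) := Nat.cast_nonneg _
  rw [Nat.cast_choose_two] at h1
  rw [Nat.cast_choose_two]
  push_cast at h1
  have hnN : (N : ℝ) + 2 ≤ n := by exact_mod_cast hn
  have hn1 : 2 / ε < (n : ℝ) - 1 := by linarith
  rw [div_lt_iff₀ hε] at hn1
  have hn2 : (2 : ℝ) ≤ n := by
    have : (0 : ℝ) ≤ N := Nat.cast_nonneg _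
    linarith
  have h2 : (m : ℝ) * ((((n / m : ℕ) : ℝ) + 1) * (((n / m : ℕ) : ℝ) + 1 - 1) / 2)
      ≤ (m : ℝ) * (((n : ℝ) / m + 1) * ((n : ℝ) / m) / 2) := by
    apply mul_le_mul_of_nonneg_left _ (by linarith)
    have : (((n / m : ℕ) : ℝ) + 1) * (((n / m : ℕ) : ℝ) + 1 - 1)
        ≤ ((n : ℝ) / m + 1) * ((n : ℝ) / m) := by
      have : (((n / m : ℕ) : ℝ) + 1) * (((n / m : ℕ) : ℝ) + 1 - 1)
        = (((n / m : ℕ) : ℝ) + 1) * ((n / m : ℕ) : ℝ) := by ring
      rw [this]
      exact mul_le_mul (by linarith) hq hq0 (by linarith)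
    linarith
  have h3 : (m : ℝ) * (((n : ℝ) / m + 1) * ((n : ℝ) / m) / 2)
      = (n : ℝ) * ((1 / m) * (n - 1) + (1 / m + 1)) / 2 := by
    field_simp
    ring
  have h4 : (1 : ℝ) / m + 1 ≤ 2 := by
    have : (1 : ℝ) / m ≤ 1 := by rw [div_le_one (by linarith)]; exact hm0
    linarith
  have h5 : (n : ℝ) * ((1 / m) * (n - 1) + (1 / m + 1)) / 2
      ≤ (1 / (m : ℝ) + ε) * ((n : ℝ) * (n - 1) / 2) := by
    have h6 : (1 / (m : ℝ)) * (n - 1) + (1 / m + 1) ≤ (1 / (m : ℝ) + ε) * (n - 1) := by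
      have : (1 / (m : ℝ) + ε) * ((n : ℝ) - 1) = (1 / (m : ℝ)) * (n - 1) + (n - 1) * ε := by ring
      rw [this]
      linarith
    calc (n : ℝ) * ((1 / m) * (n - 1) + (1 / m + 1)) / 2
        ≤ (n : ℝ) * ((1 / (m : ℝ) + ε) * (n - 1)) / 2 := by
          have := mul_le_mul_of_nonneg_left h6 (show (0 : ℝ) ≤ n by linarith)
          linarith
      _ = _ := by ring
  linarith

theorem limit2 (s t : ℕ) (hs : 2 ≤ s) (hst : s < t) :
    Tendsto (fun n : ℕ => (f n 2 s t : ℝ) / (n.choose 2 : ℝ)) atTop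
      (𝓝 (1 / (((t - 1) / (s - 1) : ℕ) : ℝ))) := by
  set m := (t - 1) / (s - 1) with hm
  have hm1 : 1 ≤ m := by
    rw [hm, Nat.le_div_iff_mul_le (by omega)]; omega
  have h1 : m * (s - 1) < t := by
    have := Nat.div_mul_le_self (t - 1) (s - 1)
    rw [← hm] at this
    omega
  have h2 : t ≤ (m + 1) * (s - 1) := by
    have := Nat.lt_mul_div_succ (t - 1) (show 0 < s - 1 by omega)
    rw [← hm] at this
    rw [mul_comm]
    omega
  rw [Metric.tendsto_nhds]
  intro ε hε
  filter_upwards [lower2 s t m hs hst.le hm1 h2 (ε / 2) (by linarith),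
    upper2 s t m hm1 h1 (ε / 2) (by linarith), eventually_ge_atTop 2] with n hl hu hn
  have hch : (0 : ℝ) < (n.choose 2 : ℝ) := by exact_mod_cast Nat.choose_pos hn
  rw [Real.dist_eq, abs_sub_lt_iff]
  rw [← le_div_iff₀ hch] at hl
  rw [← div_le_iff₀ hch] at hu
  constructor <;> linarith

end Pool.Agent.TH634.SH
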