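import Pool.Agent.TH634.SH.Erdos

/-!
# The smallest lower shadow of a covering family: the regime `t < s + ⌊t / r⌋ + 1`
-/

set_option autoImplicit false

namespace Pool.Agent.TH634.SH

open Finset

/-- the lower `r`-shadow -/
def shadow (n r : ℕ) (A : Finset (Finset (Fin n))) : Finset (Finset (Fin n)) :=
  ((univ : Finset (Fin n)).powersetCard r).filter (fun B => ∃ C ∈ A, B ⊆ C)

/-- `A` is a `t`-covering family of `s`-sets -/
def Covering (n s t : ℕ) (A : Finset (Finset (Fin n))) : Prop :=
  (∀ S ∈ A, S.card = s) ∧ ∀ T : Finset (Fin n), T.card = t → ∃ S ∈ A, S ⊆ T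

/-- `f (n, r, s, t)` -/
noncomputable def f (n r s t : ℕ) : ℕ :=
  sInf {m | ∃ A : Finset (Finset (Fin n)), Covering n s t A ∧ m = (shadow n r A).card}

theorem f_le {n r s t : ℕ} {A : Finset (Finset (Fin n))} (hA : Covering n s t A) :
    f n r s t ≤ (shadow n r A).card := Nat.sInf_le ⟨A, hA, rfl⟩

theorem covering_full (n s t : ℕ) (hst : s ≤ t) :
    Covering n s t ((univ : Finset (Fin n)).powersetCard s) := by
  refine ⟨fun S hS => (mem_powersetCard.1 hS).2, fun T hT => ?_⟩
  obtain ⟨S, hS, hc⟩ := exists_subset_card_eq (n := s) (s := T) (by omega)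
  exact ⟨S, mem_powersetCard.2 ⟨subset_univ _, hc⟩, hS⟩

theorem exists_f (n r s t : ℕ) (hst : s ≤ t) :
    ∃ A : Finset (Finset (Fin n)), Covering n s t A ∧ f n r s t = (shadow n r A).card :=
  Nat.sInf_mem (s := {m | ∃ A : Finset (Finset (Fin n)), Covering n s t A ∧
    m = (shadow n r A).card}) ⟨_, _, covering_full n s t hst, rfl⟩

/-- upper bound by the `s`-subsets of a set of `n - (t - s)` points -/
theorem upper (n r s t : ℕ) (hst : s < t) (htn : t ≤ n) :
    f n r s t ≤ (n - (t - s)).choose r := by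
  obtain ⟨V, -, hV⟩ := exists_subset_card_eq (n := n - (t - s)) (s := (univ : Finset (Fin n)))
    (by simp)
  have hA : Covering n s t (V.powersetCard s) := by
    refine ⟨fun S hS => (mem_powersetCard.1 hS).2, fun T hT => ?_⟩
    have h1 : T.card ≤ (T ∩ V).card + (univ \ V).card := by
      rw [← card_inter_add_card_sdiff T V]
      exact Nat.add_le_add_left (card_le_card (sdiff_subset_sdiff (subset_univ _) le_rfl)) _
    have h2 : (univ \ V).card = n - (n - (t - s)) := by
      rw [card_sdiff_of_subset (subset_univ _), hV]; simp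
    obtain ⟨S, hS, hc⟩ := exists_subset_card_eq (n := s) (s := T ∩ V) (by omega)
    exact ⟨S, mem_powersetCard.2 ⟨hS.trans inter_subset_right, hc⟩, hS.trans inter_subset_left⟩
  refine (f_le hA).trans ?_
  rw [← hV, ← card_powersetCard]
  apply card_le_card
  intro B hB
  rw [shadow, mem_filter, mem_powersetCard] at hB
  obtain ⟨⟨-, hBc⟩, C, hC, hBC⟩ := hB
  exact mem_powersetCard.2 ⟨hBC.trans (mem_powersetCard.1 hC).1, hBc⟩

/-- the sets outside the shadow of a covering family have no `t - s + 1` disjoint members -/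
theorem no_matching (n r s t : ℕ) (hst : s < t) (htn : t ≤ n) (h : r * (t - s + 1) ≤ t)
    (A : Finset (Finset (Fin n))) (hA : Covering n s t A) :
    ¬ HasMatching (((univ : Finset (Fin n)).powersetCard r) \ shadow n r A) (t - s + 1) := by
  rintro ⟨M, hM, hMc, hMd⟩
  have hr : ∀ B ∈ M, B.card = r := fun B hB =>
    (mem_powersetCard.1 (mem_sdiff.1 (hM hB)).1).2
  have hW : (M.biUnion id).card ≤ t := by
    calc (M.biUnion id).card ≤ r * (t - s + 1) :=
          card_biUnion_le' M M r (t - s + 1) le_rfl hMc.le hr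
      _ ≤ t := h
  obtain ⟨T, hWT, -, hT⟩ := exists_subsuperset_card_eq (subset_univ (M.biUnion id)) hW
    (by simpa using htn)
  obtain ⟨S, hS, hST⟩ := hA.2 T hT
  have hSc := hA.1 S hS
  have hmeet : ∀ B ∈ M, ∃ x, x ∈ B ∧ x ∉ S := by
    intro B hB
    by_contra hcon
    push Not at hcon
    refine (mem_sdiff.1 (hM hB)).2 ?_
    rw [shadow, mem_filter]
    exact ⟨(mem_sdiff.1 (hM hB)).1, S, hS, hcon⟩
  choose g hg using hmeet
  have h1 : M.card ≤ (T \ S).card := by
    rw [← card_attach (s := M)]
    apply card_le_card_of_injOn (fun B => g B.1 B.2)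
    · intro B _
      simp only [mem_coe, mem_sdiff]
      exact ⟨hWT (mem_biUnion.2 ⟨B.1, B.2, (hg B.1 B.2).1⟩), (hg B.1 B.2).2⟩
    · intro B _ C _ hBC
      by_contra hne
      have hd := hMd B.2 C.2 (fun h => hne (Subtype.ext h))
      exact (disjoint_left.1 hd (hg B.1 B.2).1) (by
        simp only [id]
        have := (hg C.1 C.2).1
        simp only at hBC
        rw [hBC]; exact this)
  rw [card_sdiff_of_subset hST, hT, hSc, hMc] at h1
  omega

/-- the exact value in the regime `t < s + ⌊t / r⌋` -/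
theorem exact (n r s t : ℕ) (hr : 1 ≤ r) (hst : s < t) (htn : t ≤ n) (h : t + 1 ≤ s + t / r)
    (hn : 2 * r + (t - s) + 2 ^ (r - 1) * (r - 1).factorial * (r * (t - s) * (r * (t - s))) ≤ n) :
    f n r s t = (n - (t - s)).choose r := by
  have h' : r * (t - s + 1) ≤ t := by
    have h1 : t - s + 1 ≤ t / r := by omega
    calc r * (t - s + 1) ≤ r * (t / r) := Nat.mul_le_mul_left _ h1
      _ ≤ t := Nat.mul_div_le t r
  apply le_antisymm (upper n r s t hst htn)
  obtain ⟨A, hA, hf⟩ := exists_f n r s t hst.le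
  have hsub : shadow n r A ⊆ (univ : Finset (Fin n)).powersetCard r := filter_subset _ _
  have h2 := erdos r hr (t - s) univ (((univ : Finset (Fin n)).powersetCard r) \ shadow n r A)
    (by simpa using hn) sdiff_subset (no_matching n r s t hst htn h' A hA)
  rw [card_sdiff_of_subset hsub, card_powersetCard, card_univ, Fintype.card_fin] at h2
  have h3 := card_le_card hsub
  rw [card_powersetCard, card_univ, Fintype.card_fin] at h3
  rw [hf]
  omega

/-- the family of the `s`-sets missing a residue class modulo `r` -/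
def miss (n r s : ℕ) : Finset (Finset (Fin n)) :=
  ((univ : Finset (Fin n)).powersetCard s).filter (fun S => ∃ i < r, ∀ x ∈ S, (x : ℕ) % r ≠ i)

theorem miss_covering (n r s t : ℕ) (hr : 1 ≤ r) (h : s + t / r ≤ t) :
    Covering n s t (miss n r s) := by
  refine ⟨fun S hS => (mem_powersetCard.1 (mem_filter.1 hS).1).2, fun T hT => ?_⟩
  obtain ⟨i, hi, hc⟩ := exists_card_fiber_lt_of_card_lt_mul (s := T) (t := range r)
    (f := fun x : Fin n => (x : ℕ) % r) (n := t / r + 1)
    (by rw [hT, card_range]; exact Nat.lt_mul_div_succ t hr)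
  rw [mem_range] at hi
  have h1 := card_filter_add_card_filter_not (s := T) (fun x : Fin n => (x : ℕ) % r = i)
  obtain ⟨S, hS, hSc⟩ := exists_subset_card_eq (n := s)
    (s := T.filter (fun x : Fin n => ¬ (x : ℕ) % r = i)) (by omega)
  refine ⟨S, ?_, hS.trans (filter_subset _ _)⟩
  rw [miss, mem_filter, mem_powersetCard]
  exact ⟨⟨subset_univ _, hSc⟩, i, hi, fun x hx => (mem_filter.1 (hS hx)).2⟩

/-- the `r`-sets meeting all residue classes modulo `r` -/
def tr (n r : ℕ) : Finset (Finset (Fin n)) :=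
  ((univ : Finset (Fin n)).powersetCard r).filter (fun B => ∀ i < r, ∃ x ∈ B, (x : ℕ) % r = i)

theorem le_card_tr (n r : ℕ) (hr : 1 ≤ r) : (n / r) ^ r ≤ (tr n r).card := by
  have hlt : ∀ (g : Fin r → Fin (n / r)) (i : Fin r), (i : ℕ) + r * (g i : ℕ) < n := by
    intro g i
    have h1 : (g i : ℕ) + 1 ≤ n / r := (g i).2
    have h2 : r * ((g i : ℕ) + 1) ≤ r * (n / r) := Nat.mul_le_mul_left _ h1
    have h3 : r * (n / r) ≤ n := Nat.mul_div_le n r
    have h4 := i.2
    rw [mul_add, mul_one] at h2
    omega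
  have hmod : ∀ (g : Fin r → Fin (n / r)) (i : Fin r), ((i : ℕ) + r * (g i : ℕ)) % r = i := by
    intro g i
    rw [Nat.add_mul_mod_self_left, Nat.mod_eq_of_lt i.2]
  calc (n / r) ^ r = (univ : Finset (Fin r → Fin (n / r))).card := by simp
    _ ≤ (tr n r).card := by
      apply card_le_card_of_injOn
        (fun g => univ.image (fun i : Fin r => (⟨(i : ℕ) + r * (g i : ℕ), hlt g i⟩ : Fin n)))
      · intro g _
        simp only [mem_coe, tr, mem_filter, mem_powersetCard]
        refine ⟨⟨subset_univ _, ?_⟩, fun i hi => ?_⟩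
        · rw [card_image_of_injective, card_univ, Fintype.card_fin]
          intro i j hij
          have h1 : (i : ℕ) + r * (g i : ℕ) = (j : ℕ) + r * (g j : ℕ) := congrArg Fin.val hij
          apply Fin.ext
          rw [← hmod g i, ← hmod g j, h1]
        · exact ⟨_, mem_image_of_mem _ (mem_univ ⟨i, hi⟩), hmod g ⟨i, hi⟩⟩
      · intro g _ g' _ hgg
        funext i
        have h1 : (⟨(i : ℕ) + r * (g i : ℕ), hlt g i⟩ : Fin n) ∈
            univ.image (fun i : Fin r => (⟨(i : ℕ) + r * (g' i : ℕ), hlt g' i⟩ : Fin n)) := by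
          simp only at hgg
          rw [← hgg]
          exact mem_image_of_mem _ (mem_univ i)
        obtain ⟨j, -, hj⟩ := mem_image.1 h1
        have h2 : (j : ℕ) + r * (g' j : ℕ) = (i : ℕ) + r * (g i : ℕ) := congrArg Fin.val hj
        have h3 : j = i := by
          apply Fin.ext
          rw [← hmod g i, ← hmod g' j, h2]
        subst h3
        have h4 : r * (g' j : ℕ) = r * (g j : ℕ) := by omega
        exact Fin.ext (Nat.eq_of_mul_eq_mul_left hr h4).symm

/-- outside the regime `f` is at most `C(n, r) - ⌊n / r⌋ ^ r` -/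
theorem outside (n r s t : ℕ) (hr : 1 ≤ r) (h : s + t / r ≤ t) :
    f n r s t + (n / r) ^ r ≤ n.choose r := by
  have h1 := f_le (r := r) (miss_covering n r s t hr h)
  have h2 := le_card_tr n r hr
  have hd : Disjoint (shadow n r (miss n r s)) (tr n r) := by
    rw [disjoint_left]
    intro B hB hB'
    rw [shadow, mem_filter] at hB
    obtain ⟨-, C, hC, hBC⟩ := hB
    obtain ⟨-, i, hi, hmiss⟩ := mem_filter.1 hC
    obtain ⟨x, hx, hxi⟩ := (mem_filter.1 hB').2 i hi
    exact hmiss x (hBC hx) hxi
  have h3 : (shadow n r (miss n r s) ∪ tr n r).card ≤ n.choose r := by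
    calc _ ≤ ((univ : Finset (Fin n)).powersetCard r).card :=
          card_le_card (union_subset (filter_subset _ _) (filter_subset _ _))
      _ = n.choose r := by rw [card_powersetCard, card_univ, Fintype.card_fin]
  rw [card_union_of_disjoint hd] at h3
  omega

end Pool.Agent.TH634.SH
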