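import Pool.Agent.TH634.SH.Graph

/-!
# Smallest lower `2`-shadow of a family covering a higher layer: asymptotics for all `s < t`

A copy of the complete `(m + 1)`-partite graph with parts of size `s - 1`, where
`t ≤ (m + 1) (s - 1)`, cannot lie outside the shadow, so the Erdős-Stone theorem bounds the number
of the pairs outside the shadow; `m = ⌊(t - 1) / (s - 1)⌋` nearly equal blocks show that the bound
is sharp.
-/

set_option autoImplicit false

namespace Pool.Agent.Results.MP_455133_co.TwoShadow

open Pool.Agent.TH634.SH Filter Topology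

/-- For all `2 < s < t` the smallest lower `2`-shadow of a `t`-covering family of `s`-subsets of
`[n]` is asymptotically `C(n, 2) / ⌊(t - 1) / (s - 1)⌋`. -/
theorem result (s t : ℕ) (hs : 2 < s) (hst : s < t) :
    Tendsto (fun n : ℕ => (f n 2 s t : ℝ) / (n.choose 2 : ℝ)) atTop
      (𝓝 (1 / (((t - 1) / (s - 1) : ℕ) : ℝ))) :=
  limit2 s t hs.le hst

end Pool.Agent.Results.MP_455133_co.TwoShadow
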